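import Mathlib

set_option autoImplicit false

namespace Pool.Agent.H.MP_7efe7b_al

/-! ### The first Grigorchuk group, acting on finite binary words

The letter `0` is `false` and the letter `1` is `true`; vertices of the rooted binary tree are
the finite words `List Bool`. -/

/-- The action of `a`: it changes the first letter. -/
def actA : List Bool → List Bool
  | [] => []
  | x :: w => (!x) :: w

mutual
/-- The action of `b`: `b(0w) = 0 a(w)`, `b(1w) = 1 c(w)`. -/
def actB : List Bool → List Bool
  | [] => []
  | false :: w => false :: actA w
  | true :: w => true :: actC w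
/-- The action of `c`: `c(0w) = 0 a(w)`, `c(1w) = 1 d(w)`. -/
def actC : List Bool → List Bool
  | [] => []
  | false :: w => false :: actA w
  | true :: w => true :: actD w
/-- The action of `d`: `d(0w) = 0w`, `d(1w) = 1 b(w)`. -/
def actD : List Bool → List Bool
  | [] => []
  | false :: w => false :: w
  | true :: w => true :: actB w
end

theorem actA_invol : Function.Involutive actA := by
  intro w
  cases w with
  | nil => rfl
  | cons x w => simp [actA]

theorem actBCD_invol (w : List Bool) :
    actB (actB w) = w ∧ actC (actC w) = w ∧ actD (actD w) = w := by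
  induction w with
  | nil => simp [actB, actC, actD]
  | cons x w ih =>
    obtain ⟨h1, h2, h3⟩ := ih
    cases x <;> simp [actB, actC, actD, h1, h2, h3, actA_invol w]

theorem actB_invol : Function.Involutive actB := fun w => (actBCD_invol w).1
theorem actC_invol : Function.Involutive actC := fun w => (actBCD_invol w).2.1
theorem actD_invol : Function.Involutive actD := fun w => (actBCD_invol w).2.2

/-- The generator `a` as a permutation of the set of vertices of the tree. -/
def genA : Equiv.Perm (List Bool) := actA_invol.toPerm
/-- The generator `b` as a permutation of the set of vertices of the tree. -/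
def genB : Equiv.Perm (List Bool) := actB_invol.toPerm
/-- The generator `c` as a permutation of the set of vertices of the tree. -/
def genC : Equiv.Perm (List Bool) := actC_invol.toPerm
/-- The generator `d` as a permutation of the set of vertices of the tree. -/
def genD : Equiv.Perm (List Bool) := actD_invol.toPerm

/-- The first Grigorchuk group: the group generated by `a, b, c, d`. -/
def Grigorchuk : Subgroup (Equiv.Perm (List Bool)) :=
  Subgroup.closure {genA, genB, genC, genD}

/-- The word length of `g` with respect to `{a, b, c, d}`: the least length of a product of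
generators equal to `g`. -/
noncomputable def wordLength (g : Equiv.Perm (List Bool)) : ℕ :=
  sInf {n | ∃ l : List (Equiv.Perm (List Bool)),
    (∀ x ∈ l, x ∈ ({genA, genB, genC, genD} : Set (Equiv.Perm (List Bool)))) ∧
      l.prod = g ∧ l.length = n}

/-- The section `g_u`, determined by `g(uw) = g(u) g_u(w)`; as `g(u)` has the length of `u`, the
word `g_u(w)` is what remains of `g(uw)` after its first `|u|` letters are dropped. -/
def sect (g : Equiv.Perm (List Bool)) (u : List Bool) : List Bool → List Bool :=
  fun w => (g (u ++ w)).drop u.length

/-- The depth of `g`: the least `n` such that all sections `g_u`, `|u| = n`, lie in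
`{1, a, b, c, d}`. -/
noncomputable def depth (g : Equiv.Perm (List Bool)) : ℕ :=
  sInf {n | ∀ u : List Bool, u.length = n →
    sect g u ∈ ({id, actA, actB, actC, actD} : Set (List Bool → List Bool))}

/-! ### Pairs -/

/-- The map acting by `f` and `g` on the two subtrees. -/
def pairFun (f g : List Bool → List Bool) : List Bool → List Bool
  | [] => []
  | false :: w => false :: f w
  | true :: w => true :: g w

/-- The permutation acting by `g` and `h` on the two subtrees. -/
def pair (g h : Equiv.Perm (List Bool)) : Equiv.Perm (List Bool) where
  toFun := pairFun g h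
  invFun := pairFun g.symm h.symm
  left_inv w := by
    match w with
    | [] => rfl
    | false :: w => simp [pairFun]
    | true :: w => simp [pairFun]
  right_inv w := by
    match w with
    | [] => rfl
    | false :: w => simp [pairFun]
    | true :: w => simp [pairFun]

theorem pair_nil (g h : Equiv.Perm (List Bool)) : pair g h [] = [] := rfl
theorem pair_false (g h : Equiv.Perm (List Bool)) (w : List Bool) :
    pair g h (false :: w) = false :: g w := rfl
theorem pair_true (g h : Equiv.Perm (List Bool)) (w : List Bool) :
    pair g h (true :: w) = true :: h w := rfl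

theorem pair_mul (g h g' h' : Equiv.Perm (List Bool)) :
    pair g h * pair g' h' = pair (g * g') (h * h') := by
  ext1 w
  match w with
  | [] => rfl
  | false :: w => rfl
  | true :: w => rfl

theorem pair_one : pair 1 1 = 1 := by
  ext1 w
  match w with
  | [] => rfl
  | false :: w => rfl
  | true :: w => rfl

theorem pair_inv (g h : Equiv.Perm (List Bool)) : (pair g h)⁻¹ = pair g⁻¹ h⁻¹ := by
  rw [inv_eq_iff_mul_eq_one, pair_mul, mul_inv_cancel, mul_inv_cancel, pair_one]

theorem pair_inj {g h g' h' : Equiv.Perm (List Bool)} (e : pair g h = pair g' h') :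
    g = g' ∧ h = h' := by
  constructor
  · ext1 w
    have := congrArg (fun f : Equiv.Perm (List Bool) => f (false :: w)) e
    simpa [pair_false] using this
  · ext1 w
    have := congrArg (fun f : Equiv.Perm (List Bool) => f (true :: w)) e
    simpa [pair_true] using this

theorem genB_eq : genB = pair genA genC := by
  ext1 w
  match w with
  | [] => rfl
  | false :: w => rfl
  | true :: w => rfl

theorem genC_eq : genC = pair genA genD := by
  ext1 w
  match w with
  | [] => rfl
  | false :: w => rfl
  | true :: w => rfl

theorem genD_eq : genD = pair 1 genB := by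
  ext1 w
  match w with
  | [] => rfl
  | false :: w => rfl
  | true :: w => rfl

theorem a_pair_a (g h : Equiv.Perm (List Bool)) : genA * pair g h * genA = pair h g := by
  ext1 w
  match w with
  | [] => rfl
  | false :: w => rfl
  | true :: w => rfl

theorem a_pair (g h : Equiv.Perm (List Bool)) : genA * pair g h = pair h g * genA := by
  ext1 w
  match w with
  | [] => rfl
  | false :: w => rfl
  | true :: w => rfl

theorem aa : genA * genA = 1 := by
  ext1 w; exact actA_invol w
theorem bb : genB * genB = 1 := by
  ext1 w; exact actB_invol w
theorem cc : genC * genC = 1 := by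
  ext1 w; exact actC_invol w
theorem dd : genD * genD = 1 := by
  ext1 w; exact actD_invol w

theorem bc_all (w : List Bool) :
    actB (actC w) = actD w ∧ actC (actD w) = actB w ∧ actD (actB w) = actC w ∧
    actC (actB w) = actD w ∧ actD (actC w) = actB w ∧ actB (actD w) = actC w := by
  induction w with
  | nil => simp [actB, actC, actD]
  | cons x w ih =>
    obtain ⟨h1, h2, h3, h4, h5, h6⟩ := ih
    cases x <;> simp [actB, actC, actD, h1, h2, h3, h4, h5, h6, actA_invol w]

theorem bc : genB * genC = genD := by ext1 w; exact (bc_all w).1
theorem cd : genC * genD = genB := by ext1 w; exact (bc_all w).2.1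
theorem db : genD * genB = genC := by ext1 w; exact (bc_all w).2.2.1
theorem cb : genC * genB = genD := by ext1 w; exact (bc_all w).2.2.2.1
theorem dc : genD * genC = genB := by ext1 w; exact (bc_all w).2.2.2.2.1
theorem bd : genB * genD = genC := by ext1 w; exact (bc_all w).2.2.2.2.2

/-! ### Words -/

/-- Names of the generators. -/
inductive Gen
  | A | B | C | D
  deriving DecidableEq

open Gen

/-- The generator with a given name. -/
def val : Gen → Equiv.Perm (List Bool)
  | A => genA
  | B => genB
  | C => genC
  | D => genD

/-- Evaluation of a word. -/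
def ev (w : List Gen) : Equiv.Perm (List Bool) := (w.map val).prod

@[simp] theorem ev_nil : ev [] = 1 := rfl
@[simp] theorem ev_cons (x : Gen) (w : List Gen) : ev (x :: w) = val x * ev w := by
  simp [ev]
@[simp] theorem ev_append (v w : List Gen) : ev (v ++ w) = ev v * ev w := by
  simp [ev]

theorem val_mul_self (x : Gen) : val x * val x = 1 := by
  cases x
  · exact aa
  · exact bb
  · exact cc
  · exact dd

theorem ev_reverse (w : List Gen) : ev w.reverse = (ev w)⁻¹ := by
  induction w with
  | nil => simp
  | cons x w ih =>
    have h : (val x)⁻¹ = val x := by rw [inv_eq_iff_mul_eq_one, val_mul_self]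
    simp [ih, mul_inv_rev, h]

theorem val_mem (x : Gen) : val x ∈ Grigorchuk := by
  apply Subgroup.subset_closure
  cases x <;> simp [val]

theorem ev_mem (w : List Gen) : ev w ∈ Grigorchuk := by
  induction w with
  | nil => exact one_mem _
  | cons x w ih => rw [ev_cons]; exact mul_mem (val_mem x) ih

theorem exists_word {g : Equiv.Perm (List Bool)} (hg : g ∈ Grigorchuk) : ∃ w, ev w = g := by
  unfold Grigorchuk at hg
  induction hg using Subgroup.closure_induction with
  | mem x hx =>
    rcases hx with rfl | rfl | rfl | rfl
    · exact ⟨[A], by simp [val]⟩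
    · exact ⟨[B], by simp [val]⟩
    · exact ⟨[C], by simp [val]⟩
    · exact ⟨[D], by simp [val]⟩
  | one => exact ⟨[], rfl⟩
  | mul x y _ _ hx hy =>
    obtain ⟨v, rfl⟩ := hx
    obtain ⟨w, rfl⟩ := hy
    exact ⟨v ++ w, by simp⟩
  | inv x _ hx =>
    obtain ⟨v, rfl⟩ := hx
    exact ⟨v.reverse, ev_reverse v⟩

/-- The number of letters `a` in a word. -/
def cA (w : List Gen) : ℕ := w.count A

@[simp] theorem cA_nil : cA [] = 0 := rfl
@[simp] theorem cA_append (v w : List Gen) : cA (v ++ w) = cA v + cA w := by simp [cA]
@[simp] theorem cA_consA (w : List Gen) : cA (A :: w) = cA w + 1 := by simp [cA]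
@[simp] theorem cA_consB (w : List Gen) : cA (B :: w) = cA w := by simp [cA]
@[simp] theorem cA_consC (w : List Gen) : cA (C :: w) = cA w := by simp [cA]
@[simp] theorem cA_consD (w : List Gen) : cA (D :: w) = cA w := by simp [cA]
@[simp] theorem cA_reverse (w : List Gen) : cA w.reverse = cA w := by simp [cA]

/-- `g` is represented by a word with at most `n` letters `a`. -/
def HasLen (g : Equiv.Perm (List Bool)) (n : ℕ) : Prop := ∃ w, ev w = g ∧ cA w ≤ n

theorem HasLen.mono {g : Equiv.Perm (List Bool)} {m n : ℕ} (h : HasLen g m) (hmn : m ≤ n) :
    HasLen g n := by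
  obtain ⟨w, hw, hl⟩ := h
  exact ⟨w, hw, hl.trans hmn⟩

theorem HasLen.mul {g h : Equiv.Perm (List Bool)} {m n : ℕ} (hg : HasLen g m) (hh : HasLen h n) :
    HasLen (g * h) (m + n) := by
  obtain ⟨v, rfl, hv⟩ := hg
  obtain ⟨w, rfl, hw⟩ := hh
  exact ⟨v ++ w, by simp, by simp; omega⟩

theorem HasLen.mem {g : Equiv.Perm (List Bool)} {n : ℕ} (h : HasLen g n) : g ∈ Grigorchuk := by
  obtain ⟨w, rfl, -⟩ := h
  exact ev_mem w

theorem hasLen_ev (w : List Gen) : HasLen (ev w) (cA w) := ⟨w, rfl, le_rfl⟩

end Pool.Agent.H.MP_7efe7b_al
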