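import Pool.Agent.H.MP_7efe7b_al.Merge

set_option autoImplicit false

namespace Pool.Agent.H.MP_7efe7b_al

open Gen

/-! ### The blocks -/

/-- The blocks. -/
def S0 : List Gen := [A]
/-- The blocks. -/
def S1 : List Gen := lam C S0
/-- The blocks. -/
def S2 : List Gen := lam B S1
/-- The blocks. -/
def S3 : List Gen := lam C S2
/-- The blocks. -/
def S4 : List Gen := lam B S3
/-- The blocks. -/
def S5 : List Gen := lam B S4
/-- The blocks. -/
def S6 : List Gen := lam C S5

/-- The letters of `S6` other than `a`. -/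
def zs : List Gen :=
  [C, D, C, C, C, D, C, C, C, D, C, C, C, D, C, D,
   C, D, C, C, C, D, C, C, C, D, C, C, C, D, C, D,
   C, D, C, C, C, D, C, C, C, D, C, C, C, D, C, D,
   C, D, C, C, C, D, C, C, C, D, C, C, C, D, C]

theorem zs_spec : S6.filter (fun x => decide (x ≠ A)) = zs := by decide +kernel

theorem S6_eq : S6 = A :: ZA zs := by decide +kernel

theorem zs_CD : ∀ z ∈ zs, z = C ∨ z = D := by decide +kernel

theorem Q_eq : lam C (S5.take 60) ++ [A] = A :: ZA (zs.take 60) := by decide +kernel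

theorem J_eq : nf (jW C (S5.take 60)) = 0 := by decide +kernel


theorem zs_len : zs.length = 63 := by decide +kernel

theorem phase (i : Fin 8) : ∃ m : ℕ, m ≤ 3 ∧
    (nf (dw i ++ (List.replicate m [D, A]).flatten) = 1 ∨
      nf (dw i ++ (List.replicate m [D, A]).flatten) = 3) := by
  fin_cases i
  · exact ⟨3, by decide, by decide⟩
  · exact ⟨0, by decide, by decide⟩
  · exact ⟨1, by decide, by decide⟩
  · exact ⟨0, by decide, by decide⟩
  · exact ⟨2, by decide, by decide⟩
  · exact ⟨3, by decide, by decide⟩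
  · exact ⟨2, by decide, by decide⟩
  · exact ⟨1, by decide, by decide⟩

theorem ev_rep (m : ℕ) : ev (List.replicate m [D, A]).flatten = (genD * genA) ^ m := by
  induction m with
  | zero => simp
  | succ m ih =>
    rw [List.replicate_succ, List.flatten_cons, ev_append, ih, pow_succ']
    simp [val]

theorem phase' {j : Equiv.Perm (List Bool)} (hj : InD j) : ∃ m : ℕ, m ≤ 3 ∧
    (j * (genD * genA) ^ m = genA ∨ j * (genD * genA) ^ m = genA * genD) := by
  obtain ⟨i, rfl⟩ := hj
  obtain ⟨m, hm, h⟩ := phase i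
  have hAD : ∀ x ∈ dw i ++ (List.replicate m [D, A]).flatten, x = A ∨ x = D := by
    intro x hx
    rw [List.mem_append] at hx
    rcases hx with hx | hx
    · exact dw_AD i x hx
    · rw [List.mem_flatten] at hx
      obtain ⟨l, hl, hx⟩ := hx
      rw [List.eq_of_mem_replicate hl] at hx
      simp at hx
      tauto
  have e := ev_nf _ hAD
  rw [ev_append, ev_rep] at e
  refine ⟨m, hm, ?_⟩
  rcases h with h | h
  · left; rw [e, h]; simp [dw, val]
  · right; rw [e, h]; simp [dw, val]

theorem conj_Q : genA * genD * ev (ZA (zs.take 60)) = genA * ev (ZA (zs.take 60)) * genD := by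
  have h0 : ev (jW C (S5.take 60)) = 1 := by
    rw [ev_nf, J_eq]
    · rfl
    · intro x hx
      simp only [jW, List.mem_flatMap] at hx
      obtain ⟨z, -, hz⟩ := hx
      cases z <;> simp [jL, nxt] at hz <;> simp [hz]
  have hQ : genA * ev (ZA (zs.take 60)) = pair 1 (ev (S5.take 60)) * genA := by
    have := congrArg ev Q_eq
    rw [ev_append, ev_lam (Or.inr rfl), h0] at this
    simpa [val] using this.symm
  have h1 : genA * genD * ev (ZA (zs.take 60)) =
      (genA * (genD * genA)) * (genA * ev (ZA (zs.take 60))) := by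
    simp only [mul_assoc, aa']
  rw [h1, hQ, ada, ← mul_assoc, pair_mul, mul_assoc]
  have h2 : genA * genD = pair genB 1 * genA := by
    rw [← ada]; simp only [mul_assoc, aa, mul_one]
  rw [h2, ← mul_assoc, pair_mul]
  simp

theorem AZ_take_drop (l : List Gen) (n : ℕ) : AZ l = AZ (l.take n) ++ AZ (l.drop n) := by
  rw [← AZ_append, List.take_append_drop]
theorem ZA_take_drop (l : List Gen) (n : ℕ) : ZA l = ZA (l.take n) ++ ZA (l.drop n) := by
  rw [← ZA_append, List.take_append_drop]

theorem block {u w j : Equiv.Perm (List Bool)} {n : ℕ} (hj : InD j)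
    (h : HasLen (pair u (w * j)) n) :
    ∃ j', InD j' ∧ HasLen (pair (u * ev S6) (w * ev S6 * j')) (n + 140) := by
  obtain ⟨m, hm, hph⟩ := phase' hj
  have hCD1 : ∀ z ∈ zs.take m, z = C ∨ z = D := fun z hz => zs_CD z (List.mem_of_mem_take hz)
  have hCD2 : ∀ z ∈ (zs.drop m).take 60, z = C ∨ z = D :=
    fun z hz => zs_CD z (List.mem_of_mem_drop (List.mem_of_mem_take hz))
  have hCD3 : ∀ z ∈ zs.take 60, z = C ∨ z = D := fun z hz => zs_CD z (List.mem_of_mem_take hz)
  have hCD4 : ∀ z ∈ (zs.drop m).drop 60, z = C ∨ z = D :=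
    fun z hz => zs_CD z (List.mem_of_mem_drop (List.mem_of_mem_drop hz))
  have hCD5 : ∀ z ∈ zs.drop 60, z = C ∨ z = D := fun z hz => zs_CD z (List.mem_of_mem_drop hz)
  have l1 : (zs.take m).length = m := by rw [List.length_take, zs_len]; omega
  have l2 : ((zs.drop m).take 60).length = 60 := by
    rw [List.length_take, List.length_drop, zs_len]; omega
  have l3 : (zs.take 60).length = 60 := by rw [List.length_take, zs_len]; omega
  have l4 : ((zs.drop m).drop 60).length = 3 - m := by
    rw [List.length_drop, List.length_drop, zs_len]; omega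
  have l5 : (zs.drop 60).length = 3 := by rw [List.length_drop, zs_len]
  have h1 := (h.mul (hasLen_ev (sw (zs.take m)))).mul
    (hasLen_ev (jt ((zs.drop m).take 60) (zs.take 60)))
  rw [ev_sw _ hCD1, ev_jt _ _ hCD2 hCD3 (l2.trans l3.symm), cA_sw, l1,
    cA_jt _ _ (l2.trans l3.symm), l2, pair_mul, pair_mul] at h1
  -- the word of the first coordinate
  have hU : ev (AZ (zs.take m)) * ev (AZ ((zs.drop m).take 60)) *
      ev (AZ ((zs.drop m).drop 60) ++ [A]) = ev S6 := by
    rw [S6_eq, ← AZ_ZA, AZ_take_drop zs m, AZ_take_drop (zs.drop m) 60]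
    simp only [ev_append, mul_assoc]
  have hcX : cA (AZ ((zs.drop m).drop 60) ++ [A]) = 3 - m + 1 := by
    rw [cA_append, cA_AZ _ hCD4, l4]; rfl
  have hW : genA * ev (ZA (zs.take 60)) * ev (ZA (zs.drop 60)) = ev S6 := by
    rw [S6_eq, ZA_take_drop zs 60]
    simp only [ev_cons, ev_append, mul_assoc]
    rfl
  have hcY : cA (ZA (zs.drop 60)) = 3 := by rw [cA_ZA _ hCD5, l5]
  rcases hph with hph | hph
  · obtain ⟨j', hj', h2⟩ := stepF h1 (AZ ((zs.drop m).drop 60) ++ [A]) (ZA (zs.drop 60))
    refine ⟨j', hj', ?_⟩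
    have e1 : u * ev (AZ (zs.take m)) * ev (AZ ((zs.drop m).take 60)) *
        ev (AZ ((zs.drop m).drop 60) ++ [A]) = u * ev S6 := by
      rw [← hU]; simp only [mul_assoc]
    have e2 : w * j * (genD * genA) ^ m * ev (ZA (zs.take 60)) * ev (ZA (zs.drop 60)) =
        w * ev S6 := by
      rw [mul_assoc w j, hph, ← hW]; simp only [mul_assoc]
    rw [e1, e2] at h2
    refine h2.mono ?_
    rw [hcX, hcY]; omega
  · obtain ⟨j', hj', h2⟩ := stepF h1 (AZ ((zs.drop m).drop 60) ++ [A]) (D :: ZA (zs.drop 60))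
    refine ⟨j', hj', ?_⟩
    have e1 : u * ev (AZ (zs.take m)) * ev (AZ ((zs.drop m).take 60)) *
        ev (AZ ((zs.drop m).drop 60) ++ [A]) = u * ev S6 := by
      rw [← hU]; simp only [mul_assoc]
    have e2 : w * j * (genD * genA) ^ m * ev (ZA (zs.take 60)) * ev (D :: ZA (zs.drop 60)) =
        w * ev S6 := by
      rw [← hW, mul_assoc w j, hph, mul_assoc w, conj_Q]
      show _ * (genD * ev (ZA (zs.drop 60))) = _
      simp only [mul_assoc, dd']
    rw [e1, e2] at h2
    refine h2.mono ?_
    rw [hcX, cA_consD, hcY]; omega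

/-! ### Disjoint occurrences of blocks -/

/-- The word contains `t` disjoint occurrences of `S`. -/
def Blk (S : List Gen) : ℕ → List Gen → Prop
  | 0, _ => True
  | t + 1, w => ∃ X Y, w = X ++ S ++ Y ∧ Blk S t Y

theorem Blk.prepend {S : List Gen} {t : ℕ} {w : List Gen} (h : Blk S t w) (X : List Gen) :
    Blk S t (X ++ w) := by
  cases t with
  | zero => trivial
  | succ t =>
    obtain ⟨X', Y, rfl, hY⟩ := h
    exact ⟨X ++ X', Y, by simp, hY⟩

theorem Blk.add {S : List Gen} {t : ℕ} : ∀ {v : List Gen}, Blk S t v → ∀ {t' : ℕ}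
    {w : List Gen}, Blk S t' w → Blk S (t + t') (v ++ w) := by
  induction t with
  | zero =>
    intro v _ t' w h'
    rw [Nat.zero_add]
    exact h'.prepend v
  | succ t ih =>
    intro v h t' w h'
    obtain ⟨X, Y, rfl, hY⟩ := h
    have e : t + 1 + t' = (t + t') + 1 := by omega
    rw [e]
    exact ⟨X, Y ++ w, by simp, ih hY h'⟩

theorem Blk.append {S : List Gen} {t : ℕ} {v : List Gen} (h : Blk S t v) (w : List Gen) :
    Blk S t (v ++ w) := by
  have h0 : Blk S 0 w := trivial
  simpa using h.add h0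

theorem Blk.map {S : List Gen} (y : Gen) {t : ℕ} : ∀ {v : List Gen}, Blk S t v →
    Blk (lam y S) t (lam y v) := by
  induction t with
  | zero => intro v _; trivial
  | succ t ih =>
    intro v h
    obtain ⟨X, Y, rfl, hY⟩ := h
    exact ⟨lam y X, lam y Y, by simp, ih hY⟩

theorem Blk.mono {S : List Gen} {t : ℕ} : ∀ {v : List Gen}, Blk S t v → ∀ {s : ℕ}, s ≤ t →
    Blk S s v := by
  induction t with
  | zero => intro v _ s hs; obtain rfl : s = 0 := by omega
            trivial
  | succ t ih =>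
    intro v h s hs
    cases s with
    | zero => trivial
    | succ s =>
      obtain ⟨X, Y, rfl, hY⟩ := h
      exact ⟨X, Y, rfl, ih hY (by omega)⟩

theorem blk_A (w : List Gen) : Blk S0 (cA w) w := by
  induction w with
  | nil => trivial
  | cons x w ih =>
    cases x
    · rw [cA_consA]; exact ⟨[], w, rfl, ih⟩
    · rw [cA_consB]; exact ih.prepend [B]
    · rw [cA_consC]; exact ih.prepend [C]
    · rw [cA_consD]; exact ih.prepend [D]

theorem cA_S6 : cA S6 = 64 := by decide +kernel

/-- The merging lemma. -/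
theorem mergeS (t : ℕ) : ∀ (U W : List Gen), Blk S6 t U → Blk S6 t W →
    ∀ (u w j : Equiv.Perm (List Bool)) (n N : ℕ), InD j → HasLen (pair u (w * j)) n →
    n + 2 * cA U + 2 * cA W + 10 ≤ N + 106 * t →
    ∃ j', InD j' ∧ HasLen (pair (u * ev U) (w * ev W * j')) N := by
  induction t with
  | zero =>
    intro U W _ _ u w j n N hj h hN
    obtain ⟨j', hj', h'⟩ := stepF' hj h U W
    exact ⟨j', hj', h'.mono (by omega)⟩
  | succ t ih =>
    intro U W hU hW u w j n N hj h hN
    obtain ⟨X, U', rfl, hU'⟩ := hU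
    obtain ⟨Y, W', rfl, hW'⟩ := hW
    obtain ⟨j1, hj1, h1⟩ := stepF' hj h X Y
    obtain ⟨j2, hj2, h2⟩ := block hj1 h1
    obtain ⟨j3, hj3, h3⟩ := ih U' W' hU' hW' _ _ _ _ N hj2 h2 (by
      simp only [cA_append, cA_S6] at hN
      omega)
    refine ⟨j3, hj3, ?_⟩
    simpa only [ev_append, mul_assoc] using h3

end Pool.Agent.H.MP_7efe7b_al
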