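import Pool.Agent.H.MP_7efe7b_al.Block

set_option autoImplicit false

namespace Pool.Agent.H.MP_7efe7b_al

open Gen

/-! ### Merging which keeps the blocks -/

theorem mergeN {y : Gen} (hy : y = B ∨ y = C) : ∃ c : ℕ, ∀ U W : List Gen,
    pair (ev U) (ev W) ∈ Grigorchuk → ∃ T : List Gen, ev T = pair (ev U) (ev W) ∧
      cA T ≤ 2 * cA U + 2 * cA W + c ∧
      ∀ (S : List Gen) (t t' : ℕ), Blk S t U → Blk S t' W → Blk (lam y S) (t + t') T := by
  have hfin := dih_finite (dih_pow y hy)
  obtain ⟨c1, hc1⟩ := bdd_words (hfin.image (fun g => g⁻¹))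
  obtain ⟨c2, hc2⟩ := bdd_words (hfin.image (fun g => pair g⁻¹ 1))
  refine ⟨2 * c1 + c2 + 2, fun U W hG => ?_⟩
  obtain ⟨p, hp, hp2⟩ := hc1 (ev (jW y U))⁻¹ ⟨_, jW_mem hy U, rfl⟩ (inv_mem (ev_mem _))
  have h1 : ev ([A] ++ lam y U ++ [A]) = pair (ev U) (ev (jW y U)) := by
    rw [ev_append, ev_append, ev_lam hy]
    simp only [ev_cons, ev_nil, mul_one, val]
    exact a_pair_a _ _
  have h2 : ev (lam y (p ++ W)) = pair (ev (jW y (p ++ W))) (ev (p ++ W)) := ev_lam hy _
  have h3 : ev ([A] ++ lam y U ++ [A] ++ lam y (p ++ W)) =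
      pair (ev U * ev (jW y (p ++ W))) (ev W) := by
    rw [ev_append, h1, h2, pair_mul, ev_append, hp]
    congr 1; group
  have h4 : pair (ev (jW y (p ++ W)))⁻¹ 1 =
      (ev ([A] ++ lam y U ++ [A] ++ lam y (p ++ W)))⁻¹ * pair (ev U) (ev W) := by
    rw [h3, pair_inv, pair_mul]
    congr 1 <;> group
  obtain ⟨R, hR, hR2⟩ := hc2 (pair (ev (jW y (p ++ W)))⁻¹ 1) ⟨_, jW_mem hy _, rfl⟩ (by
    rw [h4]; exact mul_mem (inv_mem (ev_mem _)) hG)
  refine ⟨[A] ++ lam y U ++ [A] ++ lam y (p ++ W) ++ R, ?_, ?_, ?_⟩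
  · rw [ev_append, hR, h4, mul_inv_cancel_left]
  · simp only [cA_append, cA_lam hy, cA_consA, cA_nil]
    omega
  · intro S t t' hU hW
    have hU' := (hU.map y).prepend [A]
    have hW' := ((hW.prepend p).map y).append R
    have := (hU'.append [A]).add hW'
    simpa only [List.append_assoc] using this

/-! ### The depth -/

/-- A recursive form of the depth. -/
def Dp : ℕ → Equiv.Perm (List Bool) → Prop
  | 0, g => g ∈ ({1, genA, genB, genC, genD} : Set (Equiv.Perm (List Bool)))
  | n + 1, g => ∃ g0 g1 : Equiv.Perm (List Bool), g0 ∈ Grigorchuk ∧ g1 ∈ Grigorchuk ∧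
      Dp n g0 ∧ Dp n g1 ∧ (g = pair g0 g1 ∨ g = pair g0 g1 * genA)

/-- All elements of depth at most `n` have words with at most `x` letters `a`. -/
def PP (n x : ℕ) : Prop := ∀ g, g ∈ Grigorchuk → Dp n g → HasLen g x

/-- The structured version. -/
def RR (S : List Gen) (k n x c : ℕ) : Prop := ∀ g, g ∈ Grigorchuk → Dp (n + k) g →
  ∃ U t, ev U = g ∧ Blk S t U ∧ cA U ≤ 2 ^ k * t + c ∧ t ≤ 2 ^ k * x

theorem RR_zero {n x : ℕ} (h : PP n x) : RR S0 0 n x 0 := by
  intro g hg hd
  obtain ⟨w, hw, hl⟩ := h g hg hd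
  exact ⟨w, cA w, hw, blk_A w, by simp, by simpa using hl⟩

theorem genA_mem : genA ∈ Grigorchuk := val_mem A

theorem pair_mem_of {g g0 g1 : Equiv.Perm (List Bool)} (hg : g ∈ Grigorchuk)
    (h : g = pair g0 g1 ∨ g = pair g0 g1 * genA) : pair g0 g1 ∈ Grigorchuk := by
  rcases h with rfl | rfl
  · exact hg
  · have : pair g0 g1 = pair g0 g1 * genA * genA := by rw [mul_assoc, aa, mul_one]
    rw [this]; exact mul_mem hg genA_mem

theorem RR_succ {y : Gen} (hy : y = B ∨ y = C) : ∃ c : ℕ, ∀ (S : List Gen) (k n x c' : ℕ),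
    RR S k n x c' → RR (lam y S) (k + 1) n x (4 * c' + c) := by
  obtain ⟨c, hc⟩ := mergeN hy
  refine ⟨c + 1, fun S k n x c' h g hg hd => ?_⟩
  obtain ⟨g0, g1, hg0, hg1, hd0, hd1, hgg⟩ := hd
  obtain ⟨U, t, rfl, hU, hUc, ht⟩ := h g0 hg0 hd0
  obtain ⟨W, t', rfl, hW, hWc, ht'⟩ := h g1 hg1 hd1
  obtain ⟨T, hT, hTc, hTB⟩ := hc U W (pair_mem_of hg hgg)
  have hb := hTB S t t' hU hW
  have e : 2 ^ (k + 1) * (t + t') = 2 * (2 ^ k * t) + 2 * (2 ^ k * t') := by ring
  have e2 : 2 ^ (k + 1) * x = 2 ^ k * x + 2 ^ k * x := by ring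
  rcases hgg with rfl | rfl
  · exact ⟨T, t + t', hT, hb, by omega, by omega⟩
  · refine ⟨T ++ [A], t + t', ?_, hb.append _, ?_, by omega⟩
    · rw [ev_append, hT]; simp [val]
    · simp only [cA_append, cA_consA, cA_nil]; omega

theorem RR_six : ∃ c : ℕ, ∀ n x : ℕ, PP n x → RR S6 6 n x c := by
  obtain ⟨cB, hB⟩ := RR_succ (y := B) (Or.inl rfl)
  obtain ⟨cC, hC⟩ := RR_succ (y := C) (Or.inr rfl)
  refine ⟨4 * (4 * (4 * (4 * (4 * (4 * 0 + cC) + cB) + cC) + cB) + cB) + cC, fun n x h => ?_⟩
  have h1 : RR S1 1 n x (4 * 0 + cC) := hC _ _ _ _ _ (RR_zero h)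
  have h2 : RR S2 2 n x (4 * (4 * 0 + cC) + cB) := hB _ _ _ _ _ h1
  have h3 : RR S3 3 n x (4 * (4 * (4 * 0 + cC) + cB) + cC) := hC _ _ _ _ _ h2
  have h4 : RR S4 4 n x (4 * (4 * (4 * (4 * 0 + cC) + cB) + cC) + cB) := hB _ _ _ _ _ h3
  have h5 : RR S5 5 n x (4 * (4 * (4 * (4 * (4 * 0 + cC) + cB) + cC) + cB) + cB) :=
    hB _ _ _ _ _ h4
  exact hC _ _ _ _ _ h5

theorem PP_seven : ∃ c : ℕ, ∀ n x : ℕ, PP n x → PP (n + 7) (9600 * x + c) := by
  obtain ⟨c, hc⟩ := RR_six
  obtain ⟨c2, hc2⟩ := bdd_words (Set.finite_range fun i : Fin 8 => pair 1 (ev (dw i))⁻¹)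
  refine ⟨4 * c + c2 + 11, fun n x h g hg hd => ?_⟩
  obtain ⟨g0, g1, hg0, hg1, hd0, hd1, hgg⟩ := hd
  obtain ⟨U, t, rfl, hU, hUc, ht⟩ := hc n x h g0 hg0 hd0
  obtain ⟨W, t', rfl, hW, hWc, ht'⟩ := hc n x h g1 hg1 hd1
  have hm : HasLen (pair (ev U) (ev W)) (9600 * x + (4 * c + c2 + 10)) := by
    have h0 : HasLen (pair 1 (1 * ev (dw 0))) 0 := ⟨[], by simp [dw, pair_one], by simp⟩
    obtain ⟨j', ⟨i, rfl⟩, h1⟩ := mergeS (min t t') U W (hU.mono (min_le_left _ _))
      (hW.mono (min_le_right _ _)) 1 1 (ev (dw 0)) 0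
      (2 * cA U + 2 * cA W + 10 - 106 * min t t') ⟨0, rfl⟩ h0 (by omega)
    rw [one_mul, one_mul] at h1
    have h2 : pair 1 (ev (dw i))⁻¹ = (pair (ev U) (ev W * ev (dw i)))⁻¹ *
        pair (ev U) (ev W) := by
      rw [pair_inv, pair_mul]; congr 1 <;> group
    obtain ⟨R, hR, hR2⟩ := hc2 (pair 1 (ev (dw i))⁻¹) ⟨i, rfl⟩ (by
      rw [h2]; exact mul_mem (inv_mem h1.mem) (pair_mem_of hg hgg))
    have h3 := h1.mul (hasLen_ev R)
    rw [hR, h2, mul_inv_cancel_left] at h3
    refine h3.mono ?_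
    rcases le_total t t' with htt | htt
    · rw [min_eq_left htt]; omega
    · rw [min_eq_right htt]; omega
  rcases hgg with rfl | rfl
  · exact hm.mono (by omega)
  · have := hm.mul (hasLen_ev [A])
    have e : ev [A] = genA := by simp [val]
    rw [e] at this
    refine this.mono ?_
    simp only [cA_consA, cA_nil]; omega

theorem PP_zero : PP 0 1 := by
  intro g _ hd
  rcases hd with rfl | rfl | rfl | rfl | rfl
  · exact ⟨[], rfl, by simp⟩
  · exact ⟨[A], by simp [val], by simp⟩
  · exact ⟨[B], by simp [val], by simp⟩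
  · exact ⟨[C], by simp [val], by simp⟩
  · exact ⟨[D], by simp [val], by simp⟩

theorem PP_main : ∃ K : ℕ, 1 ≤ K ∧ ∀ m : ℕ, PP (7 * m) (K * 9600 ^ m) := by
  obtain ⟨c, hc⟩ := PP_seven
  refine ⟨1 + c, by omega, ?_⟩
  have key : ∀ m : ℕ, ∃ x, x + c ≤ (1 + c) * 9600 ^ m ∧ PP (7 * m) x := by
    intro m
    induction m with
    | zero => exact ⟨1, by simp, PP_zero⟩
    | succ m ih =>
      obtain ⟨x, hx, hP⟩ := ih
      refine ⟨9600 * x + c, ?_, hc _ _ hP⟩
      rw [pow_succ, ← mul_assoc]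
      omega
  intro m g hg hd
  obtain ⟨x, hx, hP⟩ := key m
  exact (hP g hg hd).mono (by omega)

/-! ### Properties of the depth -/

theorem one_dp : Dp 0 1 := by simp [Dp]

theorem Dp_succ (n : ℕ) : ∀ g, Dp n g → Dp (n + 1) g := by
  induction n with
  | zero =>
    intro g hg
    rcases hg with rfl | rfl | rfl | rfl | rfl
    · exact ⟨1, 1, one_mem _, one_mem _, one_dp, one_dp, Or.inl pair_one.symm⟩
    · exact ⟨1, 1, one_mem _, one_mem _, one_dp, one_dp, Or.inr (by rw [pair_one, one_mul])⟩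
    · exact ⟨genA, genC, val_mem A, val_mem C, by simp [Dp], by simp [Dp], Or.inl genB_eq⟩
    · exact ⟨genA, genD, val_mem A, val_mem D, by simp [Dp], by simp [Dp], Or.inl genC_eq⟩
    · exact ⟨1, genB, one_mem _, val_mem B, by simp [Dp], by simp [Dp], Or.inl genD_eq⟩
  | succ n ih =>
    rintro g ⟨g0, g1, h0, h1, hd0, hd1, hg⟩
    exact ⟨g0, g1, h0, h1, ih _ hd0, ih _ hd1, hg⟩

theorem Dp_mono {m n : ℕ} (h : m ≤ n) {g : Equiv.Perm (List Bool)} (hg : Dp m g) : Dp n g := by
  induction h with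
  | refl => exact hg
  | step _ ih => exact Dp_succ _ _ ih

/-- The decomposition of the elements of the group. -/
theorem decomp {g : Equiv.Perm (List Bool)} (hg : g ∈ Grigorchuk) :
    ∃ g0 g1 : Equiv.Perm (List Bool), g0 ∈ Grigorchuk ∧ g1 ∈ Grigorchuk ∧
      (g = pair g0 g1 ∨ g = pair g0 g1 * genA) := by
  obtain ⟨w, rfl⟩ := exists_word hg
  induction w with
  | nil => exact ⟨1, 1, one_mem _, one_mem _, Or.inl pair_one.symm⟩
  | cons x w ih =>
    obtain ⟨g0, g1, h0, h1, h⟩ := ih (ev_mem w)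
    rw [ev_cons]
    have hpair : ∀ p q : Equiv.Perm (List Bool), p ∈ Grigorchuk → q ∈ Grigorchuk →
        val x = pair p q → ∃ g0 g1 : Equiv.Perm (List Bool), g0 ∈ Grigorchuk ∧
        g1 ∈ Grigorchuk ∧ (val x * ev w = pair g0 g1 ∨ val x * ev w = pair g0 g1 * genA) := by
      intro p q hp hq hx
      refine ⟨p * g0, q * g1, mul_mem hp h0, mul_mem hq h1, ?_⟩
      rcases h with h | h
      · left; rw [hx, h, pair_mul]
      · right; rw [hx, h, ← mul_assoc, pair_mul]
    cases x
    · refine ⟨g1, g0, h1, h0, ?_⟩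
      rcases h with h | h
      · right; rw [h]; exact a_pair _ _
      · left; rw [h, ← mul_assoc]
        show genA * pair g0 g1 * genA = _
        exact a_pair_a _ _
    · exact hpair _ _ (val_mem A) (val_mem C) genB_eq
    · exact hpair _ _ (val_mem A) (val_mem D) genC_eq
    · exact hpair _ _ (one_mem _) (val_mem B) genD_eq

theorem Dp_val_mul (n : ℕ) : ∀ (g : Equiv.Perm (List Bool)) (x : Gen), Dp n g →
    Dp (n + 1) (val x * g) := by
  induction n with
  | zero =>
    intro g x hg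
    rcases hg with rfl | rfl | rfl | rfl | rfl
    · rw [mul_one]
      refine Dp_succ 0 _ ?_
      cases x <;> simp [Dp, val]
    · cases x
      · refine Dp_succ 0 _ ?_
        simp [Dp, val, aa]
      · exact ⟨_, _, val_mem A, val_mem C, by simp [Dp, val], by simp [Dp, val],
          Or.inr (congrArg (· * genA) genB_eq)⟩
      · exact ⟨_, _, val_mem A, val_mem D, by simp [Dp, val], by simp [Dp, val],
          Or.inr (congrArg (· * genA) genC_eq)⟩
      · exact ⟨_, _, one_mem _, val_mem B, by simp [Dp], by simp [Dp, val],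
          Or.inr (congrArg (· * genA) genD_eq)⟩
    · cases x
      · refine ⟨_, _, val_mem C, val_mem A, by simp [Dp, val], by simp [Dp, val], Or.inr ?_⟩
        show genA * genB = _
        conv_lhs => rw [genB_eq]
        exact a_pair _ _
      · refine Dp_succ 0 _ ?_
        simp [Dp, val, bb]
      · refine Dp_succ 0 _ ?_
        simp [Dp, val, cb]
      · refine Dp_succ 0 _ ?_
        simp [Dp, val, db]
    · cases x
      · refine ⟨_, _, val_mem D, val_mem A, by simp [Dp, val], by simp [Dp, val], Or.inr ?_⟩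
        show genA * genC = _
        conv_lhs => rw [genC_eq]
        exact a_pair _ _
      · refine Dp_succ 0 _ ?_
        simp [Dp, val, bc]
      · refine Dp_succ 0 _ ?_
        simp [Dp, val, cc]
      · refine Dp_succ 0 _ ?_
        simp [Dp, val, dc]
    · cases x
      · refine ⟨_, _, val_mem B, one_mem _, by simp [Dp, val], by simp [Dp], Or.inr ?_⟩
        show genA * genD = _
        conv_lhs => rw [genD_eq]
        exact a_pair _ _
      · refine Dp_succ 0 _ ?_
        simp [Dp, val, bd]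
      · refine Dp_succ 0 _ ?_
        simp [Dp, val, cd]
      · refine Dp_succ 0 _ ?_
        simp [Dp, val, dd]
  | succ n ih =>
    rintro g x ⟨g0, g1, h0, h1, hd0, hd1, h⟩
    have hpair : ∀ (p : Equiv.Perm (List Bool)) (z : Gen), p ∈ Grigorchuk →
        Dp (n + 1) (p * g0) → val x = pair p (val z) → Dp (n + 1 + 1) (val x * g) := by
      intro p z hp hd hx
      refine ⟨p * g0, val z * g1, mul_mem hp h0, mul_mem (val_mem z) h1, hd, ih _ _ hd1, ?_⟩
      rcases h with h | h
      · left; rw [hx, h, pair_mul]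
      · right; rw [hx, h, ← mul_assoc, pair_mul]
    cases x
    · refine ⟨g1, g0, h1, h0, Dp_succ _ _ hd1, Dp_succ _ _ hd0, ?_⟩
      rcases h with h | h
      · right; rw [h]; exact a_pair _ _
      · left; rw [h, ← mul_assoc]
        show genA * pair g0 g1 * genA = _
        exact a_pair_a _ _
    · exact hpair _ C (val_mem A) (ih _ A hd0) genB_eq
    · exact hpair _ D (val_mem A) (ih _ A hd0) genC_eq
    · exact hpair _ B (one_mem _) (by rw [one_mul]; exact Dp_succ _ _ hd0) genD_eq

theorem exists_Dp {g : Equiv.Perm (List Bool)} (hg : g ∈ Grigorchuk) : ∃ n, Dp n g := by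
  obtain ⟨w, rfl⟩ := exists_word hg
  induction w with
  | nil => exact ⟨0, one_dp⟩
  | cons x w ih =>
    obtain ⟨n, hn⟩ := ih (ev_mem w)
    exact ⟨n + 1, by rw [ev_cons]; exact Dp_val_mul n _ x hn⟩

/-! ### Sections -/

/-- The functions allowed as sections at the level of the depth. -/
def Nuc : Set (List Bool → List Bool) := {id, actA, actB, actC, actD}

theorem sect_pair_false (g0 g1 : Equiv.Perm (List Bool)) (u : List Bool) :
    sect (pair g0 g1) (false :: u) = sect g0 u := by
  funext w; simp [sect, pair_false]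
theorem sect_pair_true (g0 g1 : Equiv.Perm (List Bool)) (u : List Bool) :
    sect (pair g0 g1) (true :: u) = sect g1 u := by
  funext w; simp [sect, pair_true]
theorem sect_pairA_false (g0 g1 : Equiv.Perm (List Bool)) (u : List Bool) :
    sect (pair g0 g1 * genA) (false :: u) = sect g1 u := by
  funext w
  show List.drop _ (pair g0 g1 (actA (false :: (u ++ w)))) = _
  simp [sect, actA, pair_true]
theorem sect_pairA_true (g0 g1 : Equiv.Perm (List Bool)) (u : List Bool) :
    sect (pair g0 g1 * genA) (true :: u) = sect g0 u := by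
  funext w
  show List.drop _ (pair g0 g1 (actA (true :: (u ++ w)))) = _
  simp [sect, actA, pair_false]

theorem Dp_of_sect (n : ℕ) : ∀ g, g ∈ Grigorchuk →
    (∀ u : List Bool, u.length = n → sect g u ∈ Nuc) → Dp n g := by
  induction n with
  | zero =>
    intro g _ h
    have h0 := h [] rfl
    have e : sect g [] = g := by funext w; simp [sect]
    rw [e] at h0
    rcases h0 with h0 | h0 | h0 | h0 | h0
    · have : g = 1 := DFunLike.coe_injective h0
      simp [Dp, this]
    · have : g = genA := DFunLike.coe_injective h0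
      simp [Dp, this]
    · have : g = genB := DFunLike.coe_injective h0
      simp [Dp, this]
    · have : g = genC := DFunLike.coe_injective h0
      simp [Dp, this]
    · have : g = genD := DFunLike.coe_injective h0
      simp [Dp, this]
  | succ n ih =>
    intro g hg h
    obtain ⟨g0, g1, h0, h1, hgg⟩ := decomp hg
    refine ⟨g0, g1, h0, h1, ih g0 h0 ?_, ih g1 h1 ?_, hgg⟩
    · intro u hu
      rcases hgg with rfl | rfl
      · have := h (false :: u) (by simp [hu])
        rwa [sect_pair_false] at this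
      · have := h (true :: u) (by simp [hu])
        rwa [sect_pairA_true] at this
    · intro u hu
      rcases hgg with rfl | rfl
      · have := h (true :: u) (by simp [hu])
        rwa [sect_pair_true] at this
      · have := h (false :: u) (by simp [hu])
        rwa [sect_pairA_false] at this

theorem sect_of_Dp (n : ℕ) : ∀ g, Dp n g → ∀ u : List Bool, u.length = n → sect g u ∈ Nuc := by
  induction n with
  | zero =>
    intro g hg u hu
    obtain rfl : u = [] := List.length_eq_zero_iff.mp hu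
    have e : sect g [] = g := by funext w; simp [sect]
    rw [e]
    rcases hg with rfl | rfl | rfl | rfl | rfl
    · left; rfl
    · right; left; rfl
    · right; right; left; rfl
    · right; right; right; left; rfl
    · right; right; right; right; rfl
  | succ n ih =>
    rintro g ⟨g0, g1, h0, h1, hd0, hd1, hgg⟩ u hu
    match u with
    | [] => simp at hu
    | false :: u =>
      have hu' : u.length = n := by simpa using hu
      rcases hgg with rfl | rfl
      · rw [sect_pair_false]; exact ih _ hd0 u hu'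
      · rw [sect_pairA_false]; exact ih _ hd1 u hu'
    | true :: u =>
      have hu' : u.length = n := by simpa using hu
      rcases hgg with rfl | rfl
      · rw [sect_pair_true]; exact ih _ hd1 u hu'
      · rw [sect_pairA_true]; exact ih _ hd0 u hu'

theorem Dp_depth {g : Equiv.Perm (List Bool)} (hg : g ∈ Grigorchuk) : Dp (depth g) g := by
  obtain ⟨n, hn⟩ := exists_Dp hg
  have hne : {n | ∀ u : List Bool, u.length = n → sect g u ∈
      ({id, actA, actB, actC, actD} : Set (List Bool → List Bool))}.Nonempty :=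
    ⟨n, sect_of_Dp n g hn⟩
  exact Dp_of_sect _ g hg (Nat.sInf_mem hne)

/-! ### The word length -/

theorem reduce (w : List Gen) : ∃ k v : List Gen,
    (k = [] ∨ k = [B] ∨ k = [C] ∨ k = [D]) ∧ ev w = ev (k ++ v) ∧ v.length ≤ 2 * cA w := by
  induction w with
  | nil => exact ⟨[], [], Or.inl rfl, rfl, by simp⟩
  | cons x w ih =>
    obtain ⟨k, v, hk, he, hl⟩ := ih
    cases x
    · refine ⟨[], A :: (k ++ v), Or.inl rfl, by simp [he], ?_⟩
      rw [cA_consA]
      rcases hk with rfl | rfl | rfl | rfl <;> simp <;> omega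
    · rw [cA_consB]
      rcases hk with rfl | rfl | rfl | rfl
      · exact ⟨[B], v, by simp, by simp [he], hl⟩
      · exact ⟨[], v, by simp, by simp [he, val, bb'], hl⟩
      · exact ⟨[D], v, by simp, by simp [he, val, ← mul_assoc, bc], hl⟩
      · exact ⟨[C], v, by simp, by simp [he, val, ← mul_assoc, bd], hl⟩
    · rw [cA_consC]
      rcases hk with rfl | rfl | rfl | rfl
      · exact ⟨[C], v, by simp, by simp [he], hl⟩
      · exact ⟨[D], v, by simp, by simp [he, val, ← mul_assoc, cb], hl⟩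
      · exact ⟨[], v, by simp, by simp [he, val, cc'], hl⟩
      · exact ⟨[B], v, by simp, by simp [he, val, ← mul_assoc, cd], hl⟩
    · rw [cA_consD]
      rcases hk with rfl | rfl | rfl | rfl
      · exact ⟨[D], v, by simp, by simp [he], hl⟩
      · exact ⟨[C], v, by simp, by simp [he, val, ← mul_assoc, db], hl⟩
      · exact ⟨[B], v, by simp, by simp [he, val, ← mul_assoc, dc], hl⟩
      · exact ⟨[], v, by simp, by simp [he, val, dd'], hl⟩

theorem wordLength_le {g : Equiv.Perm (List Bool)} {n : ℕ} (h : HasLen g n) :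
    wordLength g ≤ 2 * n + 1 := by
  obtain ⟨w, rfl, hn⟩ := h
  obtain ⟨k, v, hk, he, hl⟩ := reduce w
  have h1 : wordLength (ev w) ≤ ((k ++ v).map val).length := by
    apply Nat.sInf_le
    refine ⟨(k ++ v).map val, ?_, he.symm, rfl⟩
    intro x hx
    rw [List.mem_map] at hx
    obtain ⟨z, -, rfl⟩ := hx
    cases z <;> simp [val]
  refine h1.trans ?_
  rw [List.length_map, List.length_append]
  rcases hk with rfl | rfl | rfl | rfl <;> simp <;> omega

end Pool.Agent.H.MP_7efe7b_al
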