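import Pool.Agent.H.MP_7efe7b_al.Base

set_option autoImplicit false

namespace Pool.Agent.H.MP_7efe7b_al

open Gen

/-! ### The substitutions -/

/-- The substitution on letters. -/
def lamL (y : Gen) : Gen → List Gen
  | A => [A, y, A]
  | B => [D]
  | C => [B]
  | D => [C]

/-- The substitution on words. -/
def lam (y : Gen) (w : List Gen) : List Gen := w.flatMap (lamL y)

@[simp] theorem lam_nil (y : Gen) : lam y [] = [] := rfl
@[simp] theorem lam_cons (y x : Gen) (w : List Gen) : lam y (x :: w) = lamL y x ++ lam y w := by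
  simp [lam]
@[simp] theorem lam_append (y : Gen) (v w : List Gen) : lam y (v ++ w) = lam y v ++ lam y w := by
  simp [lam]

/-- The letter arising in the first coordinate from `a y a`. -/
def nxt : Gen → Gen
  | B => C
  | _ => D

/-- The first coordinates of the substitution, on letters. -/
def jL (y : Gen) : Gen → List Gen
  | A => [nxt y]
  | B => []
  | C => [A]
  | D => [A]

/-- The first coordinates of the substitution. -/
def jW (y : Gen) (w : List Gen) : List Gen := w.flatMap (jL y)

@[simp] theorem jW_nil (y : Gen) : jW y [] = [] := rfl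
@[simp] theorem jW_cons (y x : Gen) (w : List Gen) : jW y (x :: w) = jL y x ++ jW y w := by
  simp [jW]
@[simp] theorem jW_append (y : Gen) (v w : List Gen) : jW y (v ++ w) = jW y v ++ jW y w := by
  simp [jW]

theorem aba : genA * (genB * genA) = pair genC genA := by
  rw [← mul_assoc]; conv_lhs => rw [genB_eq]
  exact a_pair_a _ _
theorem aca : genA * (genC * genA) = pair genD genA := by
  rw [← mul_assoc]; conv_lhs => rw [genC_eq]
  exact a_pair_a _ _
theorem ada : genA * (genD * genA) = pair genB 1 := by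
  rw [← mul_assoc]; conv_lhs => rw [genD_eq]
  exact a_pair_a _ _

theorem ev_lamL {y : Gen} (hy : y = B ∨ y = C) (x : Gen) :
    ev (lamL y x) = pair (ev (jL y x)) (val x) := by
  rcases hy with rfl | rfl <;> cases x <;> simp [lamL, jL, nxt, val, aba, aca] <;>
    first | exact genD_eq | exact genB_eq | exact genC_eq

theorem ev_lam {y : Gen} (hy : y = B ∨ y = C) (w : List Gen) :
    ev (lam y w) = pair (ev (jW y w)) (ev w) := by
  induction w with
  | nil => simp [pair_one]
  | cons x w ih => simp [ih, ev_lamL hy, pair_mul]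

theorem cA_lam {y : Gen} (hy : y = B ∨ y = C) (w : List Gen) : cA (lam y w) = 2 * cA w := by
  induction w with
  | nil => simp
  | cons x w ih =>
    rcases hy with rfl | rfl <;> cases x <;> simp [lamL, ih] <;> omega

/-! ### The finite groups of first coordinates -/

/-- The elements of the dihedral group generated by `a` and `x`. -/
def Dih (x : Equiv.Perm (List Bool)) : Set (Equiv.Perm (List Bool)) :=
  {g | ∃ i : ℕ, g = (x * genA) ^ i ∨ g = (x * genA) ^ i * genA}

theorem dih_finite {x : Equiv.Perm (List Bool)} (h : (x * genA) ^ 8 = 1) : (Dih x).Finite := by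
  have : Dih x ⊆ (Set.range fun i : Fin 8 => (x * genA) ^ (i : ℕ)) ∪
      (Set.range fun i : Fin 8 => (x * genA) ^ (i : ℕ) * genA) := by
    rintro g ⟨i, rfl | rfl⟩
    · left
      exact ⟨⟨i % 8, Nat.mod_lt _ (by norm_num)⟩, (pow_eq_pow_mod i h).symm⟩
    · right
      refine ⟨⟨i % 8, Nat.mod_lt _ (by norm_num)⟩, ?_⟩
      show (x * genA) ^ (i % 8) * genA = _
      rw [← pow_eq_pow_mod i h]
  exact Set.Finite.subset ((Set.finite_range _).union (Set.finite_range _)) this

theorem dih_a {x g : Equiv.Perm (List Bool)} (hx : x * x = 1) (h : (x * genA) ^ 8 = 1)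
    (hg : g ∈ Dih x) : genA * g ∈ Dih x := by
  have key : genA * (x * genA) * genA⁻¹ = (x * genA) ^ 7 := by
    have h1 : (x * genA) ^ 7 * (x * genA) = 1 := by rw [← pow_succ, h]
    have h2 : genA * (x * genA) * genA⁻¹ * (x * genA) = 1 := by
      have : genA * (x * genA) * genA⁻¹ * (x * genA) = genA * (x * x) * genA := by group
      rw [this, hx, mul_one, aa]
    exact mul_right_cancel (h2.trans h1.symm)
  have key2 : ∀ i : ℕ, genA * (x * genA) ^ i = (x * genA) ^ (7 * i) * genA := by
    intro i
    have : genA * (x * genA) ^ i * genA⁻¹ = (x * genA) ^ (7 * i) := by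
      rw [pow_mul, ← key, conj_pow]
    rw [← this]; group
  obtain ⟨i, rfl | rfl⟩ := hg
  · exact ⟨7 * i, Or.inr (key2 i)⟩
  · refine ⟨7 * i, Or.inl ?_⟩
    rw [← mul_assoc, key2, mul_assoc, aa, mul_one]

theorem dih_x {x g : Equiv.Perm (List Bool)} (hx : x * x = 1) (h : (x * genA) ^ 8 = 1)
    (hg : g ∈ Dih x) : x * g ∈ Dih x := by
  obtain ⟨i, hi⟩ := dih_a hx h hg
  refine ⟨i + 1, ?_⟩
  have : x * g = (x * genA) * (genA * g) := by
    rw [mul_assoc, ← mul_assoc genA genA g, aa, one_mul]
  rw [this, pow_succ']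
  rcases hi with hi | hi
  · left; rw [hi]
  · right; rw [hi]; exact (mul_assoc _ _ _).symm

theorem val_nxt_sq (y : Gen) : val (nxt y) * val (nxt y) = 1 := val_mul_self _

theorem dada : (genD * genA) ^ 4 = 1 := by
  have h : (genD * genA) ^ 2 = pair genB genB := by
    have : (genD * genA) ^ 2 = genD * (genA * (genD * genA)) := by
      rw [pow_two, mul_assoc]
    rw [this, ada]
    conv_lhs => rw [genD_eq]
    rw [pair_mul, one_mul, mul_one]
  have : (genD * genA) ^ 4 = ((genD * genA) ^ 2) ^ 2 := by rw [← pow_mul]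
  rw [this, h, pow_two, pair_mul, bb, pair_one]

theorem cacaca : (genC * genA) ^ 8 = 1 := by
  have h : (genC * genA) ^ 2 = pair (genA * genD) (genD * genA) := by
    have : (genC * genA) ^ 2 = genC * (genA * (genC * genA)) := by
      rw [pow_two, mul_assoc]
    rw [this, aca]
    conv_lhs => rw [genC_eq]
    rw [pair_mul]
  have h2 : ∀ (p q : Equiv.Perm (List Bool)) (n : ℕ), (pair p q) ^ n = pair (p ^ n) (q ^ n) := by
    intro p q n
    induction n with
    | zero => simp [pair_one]
    | succ n ih => rw [pow_succ, ih, pair_mul, ← pow_succ, ← pow_succ]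
  have h3 : (genA * genD) ^ 4 = 1 := by
    have : genA * (genD * genA) * genA⁻¹ = genA * genD := by group
    rw [← this, conj_pow, dada]; group
  have : (genC * genA) ^ 8 = ((genC * genA) ^ 2) ^ 4 := by rw [← pow_mul]
  rw [this, h, h2, h3, dada, pair_one]

theorem dih_pow (y : Gen) (hy : y = B ∨ y = C) : (val (nxt y) * genA) ^ 8 = 1 := by
  rcases hy with rfl | rfl
  · exact cacaca
  · show (genD * genA) ^ 8 = 1
    have : (genD * genA) ^ 8 = ((genD * genA) ^ 4) ^ 2 := by rw [← pow_mul]
    rw [this, dada, one_pow]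

theorem jW_mem {y : Gen} (hy : y = B ∨ y = C) (w : List Gen) :
    ev (jW y w) ∈ Dih (val (nxt y)) := by
  induction w with
  | nil => exact ⟨0, Or.inl (by simp)⟩
  | cons x w ih =>
    cases x
    · simpa [jL] using dih_x (val_nxt_sq y) (dih_pow y hy) ih
    · simpa [jL] using ih
    · simpa [jL, val] using dih_a (val_nxt_sq y) (dih_pow y hy) ih
    · simpa [jL, val] using dih_a (val_nxt_sq y) (dih_pow y hy) ih

/-- Elements of a finite set which lie in the group have words with boundedly many `a`. -/
theorem bdd_words {S : Set (Equiv.Perm (List Bool))} (hS : S.Finite) :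
    ∃ c : ℕ, ∀ g ∈ S, g ∈ Grigorchuk → ∃ w, ev w = g ∧ cA w ≤ c := by
  induction S, hS using Set.Finite.induction_on with
  | empty => exact ⟨0, by simp⟩
  | @insert g S _ _ ih =>
    obtain ⟨c, hc⟩ := ih
    by_cases hg : g ∈ Grigorchuk
    · obtain ⟨w, hw⟩ := exists_word hg
      refine ⟨c + cA w, ?_⟩
      rintro h (rfl | hh) hG
      · exact ⟨w, hw, by omega⟩
      · obtain ⟨v, hv, hv2⟩ := hc h hh hG
        exact ⟨v, hv, by omega⟩
    · refine ⟨c, ?_⟩
      rintro h (rfl | hh) hG
      · exact absurd hG hg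
      · exact hc h hh hG

end Pool.Agent.H.MP_7efe7b_al
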