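import Pool.Agent.H.MP_7efe7b_al.Lift

set_option autoImplicit false

namespace Pool.Agent.H.MP_7efe7b_al

open Gen

/-! ### The dihedral group generated by `a` and `d` -/

/-- Words for the eight elements of the group generated by `a` and `d`. -/
def dw : Fin 8 → List Gen
  | 0 => []
  | 1 => [A]
  | 2 => [D]
  | 3 => [A, D]
  | 4 => [D, A]
  | 5 => [A, D, A]
  | 6 => [D, A, D]
  | 7 => [A, D, A, D]

/-- Left multiplication by `a`. -/
def dA : Fin 8 → Fin 8
  | 0 => 1
  | 1 => 0
  | 2 => 3
  | 3 => 2
  | 4 => 5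
  | 5 => 4
  | 6 => 7
  | 7 => 6

/-- Left multiplication by `d`. -/
def dD : Fin 8 → Fin 8
  | 0 => 2
  | 1 => 4
  | 2 => 0
  | 3 => 6
  | 4 => 1
  | 5 => 7
  | 6 => 3
  | 7 => 5

/-- Normal form of a word in `a` and `d`. -/
def nf : List Gen → Fin 8
  | [] => 0
  | A :: w => dA (nf w)
  | D :: w => dD (nf w)
  | _ :: _ => 0

theorem aa' (g : Equiv.Perm (List Bool)) : genA * (genA * g) = g := by
  rw [← mul_assoc, aa, one_mul]
theorem bb' (g : Equiv.Perm (List Bool)) : genB * (genB * g) = g := by
  rw [← mul_assoc, bb, one_mul]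
theorem cc' (g : Equiv.Perm (List Bool)) : genC * (genC * g) = g := by
  rw [← mul_assoc, cc, one_mul]
theorem dd' (g : Equiv.Perm (List Bool)) : genD * (genD * g) = g := by
  rw [← mul_assoc, dd, one_mul]

theorem dada_adad : genD * (genA * (genD * genA)) = genA * (genD * (genA * genD)) := by
  have h : (genD * genA) ^ 2 * (genD * genA) ^ 2 = 1 := by rw [← pow_add]; exact dada
  have h1 : (genD * genA) ^ 2 = genD * (genA * (genD * genA)) := by
    rw [pow_two, mul_assoc]
  have h2 : genA * (genD * (genA * genD)) * (genD * genA) ^ 2 = 1 := by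
    rw [h1]; simp only [mul_assoc, dd', aa', aa]
  rw [h1] at h h2
  exact mul_right_cancel (h.trans h2.symm)

theorem ev_dA (i : Fin 8) : genA * ev (dw i) = ev (dw (dA i)) := by
  fin_cases i <;> simp [dw, dA, val, aa', aa]

theorem ev_dD (i : Fin 8) : genD * ev (dw i) = ev (dw (dD i)) := by
  fin_cases i <;> simp [dw, dD, val, dd', dd, dada_adad]
  rw [← dada_adad, dd']

theorem ev_nf (w : List Gen) (h : ∀ x ∈ w, x = A ∨ x = D) : ev w = ev (dw (nf w)) := by
  induction w with
  | nil => simp [nf, dw]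
  | cons x w ih =>
    have hw := ih (fun z hz => h z (List.mem_cons_of_mem _ hz))
    rcases h x (List.mem_cons_self ..) with rfl | rfl
    · simp [nf, val, hw, ev_dA]
    · simp [nf, val, hw, ev_dD]

theorem dw_AD (i : Fin 8) : ∀ x ∈ dw i, x = A ∨ x = D := by
  fin_cases i <;> simp [dw]

/-- Membership in the group generated by `a` and `d`. -/
def InD (j : Equiv.Perm (List Bool)) : Prop := ∃ i : Fin 8, j = ev (dw i)

theorem InD.of_word {w : List Gen} (h : ∀ x ∈ w, x = A ∨ x = D) : InD (ev w) :=
  ⟨nf w, ev_nf w h⟩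

theorem cA_dw (i : Fin 8) : cA (dw i) ≤ 2 := by
  fin_cases i <;> simp [dw]

theorem InD.short {j : Equiv.Perm (List Bool)} (h : InD j) :
    ∃ w, ev w = j ∧ cA w ≤ 2 ∧ ∀ x ∈ w, x = A ∨ x = D := by
  obtain ⟨i, rfl⟩ := h
  exact ⟨dw i, rfl, cA_dw i, dw_AD i⟩

theorem InD.short_inv {j : Equiv.Perm (List Bool)} (h : InD j) :
    ∃ w, ev w = j⁻¹ ∧ cA w ≤ 2 := by
  obtain ⟨w, rfl, h1, -⟩ := h.short
  exact ⟨w.reverse, ev_reverse w, by simpa using h1⟩

theorem InD.jW (w : List Gen) : InD (ev (jW C w)) := by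
  apply InD.of_word
  intro x hx
  simp only [Pool.Agent.H.MP_7efe7b_al.jW, List.mem_flatMap] at hx
  obtain ⟨z, -, hz⟩ := hx
  cases z <;> simp [jL, nxt] at hz <;> simp [hz]

/-! ### The basic merging step -/

theorem stepF {u w : Equiv.Perm (List Bool)} {n : ℕ} (h : HasLen (pair u w) n)
    (X Y : List Gen) :
    ∃ j, InD j ∧ HasLen (pair (u * ev X) (w * ev Y * j)) (n + 2 * cA X + 2 * cA Y + 6) := by
  have hC : (C = B ∨ C = C) := Or.inr rfl
  have h1 : HasLen (pair u w * ev (lam C Y)) (n + 2 * cA Y) := by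
    rw [← cA_lam hC Y]; exact h.mul (hasLen_ev _)
  rw [ev_lam hC, pair_mul] at h1
  obtain ⟨p, hp, hp2⟩ := (InD.jW Y).short_inv
  have h2 := h1.mul (hasLen_ev ([A] ++ lam C (p ++ X) ++ [A]))
  have h3 : ev ([A] ++ lam C (p ++ X) ++ [A]) =
      pair (ev (p ++ X)) (ev (jW C (p ++ X))) := by
    rw [ev_append, ev_append, ev_lam hC]
    simp only [ev_cons, ev_nil, mul_one, val]
    exact a_pair_a _ _
  rw [h3, pair_mul] at h2
  refine ⟨ev (jW C (p ++ X)), InD.jW _, ?_⟩
  have h4 : u * ev (jW C Y) * ev (p ++ X) = u * ev X := by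
    rw [ev_append, hp]; group
  rw [h4] at h2
  refine h2.mono ?_
  simp only [cA_append, cA_lam hC, cA_consA, cA_nil]
  omega

theorem stepF' {u w j : Equiv.Perm (List Bool)} {n : ℕ} (hj : InD j)
    (h : HasLen (pair u (w * j)) n) (X Y : List Gen) :
    ∃ j', InD j' ∧ HasLen (pair (u * ev X) (w * ev Y * j')) (n + 2 * cA X + 2 * cA Y + 10) := by
  obtain ⟨p, hp, hp2⟩ := hj.short_inv
  obtain ⟨j', hj', h'⟩ := stepF h X (p ++ Y)
  refine ⟨j', hj', ?_⟩
  have : w * j * ev (p ++ Y) = w * ev Y := by rw [ev_append, hp]; group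
  rw [this] at h'
  refine h'.mono ?_
  simp only [cA_append]
  omega

/-! ### Alternating words -/

/-- `a z₁ a z₂ ⋯`. -/
def AZ (zs : List Gen) : List Gen := zs.flatMap fun z => [A, z]
/-- `z₁ a z₂ a ⋯`. -/
def ZA (zs : List Gen) : List Gen := zs.flatMap fun z => [z, A]

@[simp] theorem AZ_nil : AZ [] = [] := rfl
@[simp] theorem ZA_nil : ZA [] = [] := rfl
@[simp] theorem AZ_cons (z : Gen) (zs : List Gen) : AZ (z :: zs) = A :: z :: AZ zs := by simp [AZ]
@[simp] theorem ZA_cons (z : Gen) (zs : List Gen) : ZA (z :: zs) = z :: A :: ZA zs := by simp [ZA]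
@[simp] theorem AZ_append (v w : List Gen) : AZ (v ++ w) = AZ v ++ AZ w := by simp [AZ]
@[simp] theorem ZA_append (v w : List Gen) : ZA (v ++ w) = ZA v ++ ZA w := by simp [ZA]

theorem AZ_ZA (zs : List Gen) : AZ zs ++ [A] = A :: ZA zs := by
  induction zs with
  | nil => rfl
  | cons z zs ih => simp [ih]

theorem cA_AZ (zs : List Gen) (h : ∀ z ∈ zs, z = C ∨ z = D) : cA (AZ zs) = zs.length := by
  induction zs with
  | nil => rfl
  | cons z zs ih =>
    have hw := ih (fun z hz => h z (List.mem_cons_of_mem _ hz))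
    rcases h z (List.mem_cons_self ..) with rfl | rfl <;> simp [hw]

theorem cA_ZA (zs : List Gen) (h : ∀ z ∈ zs, z = C ∨ z = D) : cA (ZA zs) = zs.length := by
  induction zs with
  | nil => rfl
  | cons z zs ih =>
    have hw := ih (fun z hz => h z (List.mem_cons_of_mem _ hz))
    rcases h z (List.mem_cons_self ..) with rfl | rfl <;> simp [hw]

/-- The letter with coordinates `(a, z)`. -/
def up : Gen → Gen
  | C => B
  | _ => C

theorem val_up {z : Gen} (h : z = C ∨ z = D) : val (up z) = pair genA (val z) := by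
  rcases h with rfl | rfl
  · exact genB_eq
  · exact genC_eq

theorem a_up_a {z : Gen} (h : z = C ∨ z = D) :
    genA * (val (up z) * genA) = pair (val z) genA := by
  rw [val_up h, ← mul_assoc]; exact a_pair_a _ _

theorem up_ne {z : Gen} : up z ≠ A := by cases z <;> simp [up]

theorem cA_up (z : Gen) (w : List Gen) : cA (up z :: w) = cA w := by
  cases z <;> simp [up]

/-- The solo steps. -/
def sw (zs : List Gen) : List Gen := zs.flatMap fun z => [C, A, up z, A]

theorem ev_sw (zs : List Gen) (h : ∀ z ∈ zs, z = C ∨ z = D) :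
    ev (sw zs) = pair (ev (AZ zs)) ((genD * genA) ^ zs.length) := by
  induction zs with
  | nil => simp [sw, pair_one]
  | cons z zs ih =>
    have hw := ih (fun z hz => h z (List.mem_cons_of_mem _ hz))
    have hz := h z (List.mem_cons_self ..)
    have e : sw (z :: zs) = [C, A, up z, A] ++ sw zs := by simp [sw]
    rw [e, ev_append, hw]
    simp only [ev_cons, ev_nil, mul_one, AZ_cons, List.length_cons]
    have e2 : val C * (val A * (val (up z) * val A)) = pair (genA * val z) (genD * genA) := by
      show genC * (genA * (val (up z) * genA)) = _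
      rw [a_up_a hz]
      conv_lhs => rw [genC_eq]
      rw [pair_mul]
    rw [e2, pair_mul, pow_succ', mul_assoc]
    rfl

theorem cA_sw (zs : List Gen) : cA (sw zs) = 2 * zs.length := by
  induction zs with
  | nil => rfl
  | cons z zs ih =>
    have e : sw (z :: zs) = [C, A, up z, A] ++ sw zs := by simp [sw]
    rw [e, cA_append, ih]
    simp [cA_up]; omega

/-- The joint steps. -/
def jt : List Gen → List Gen → List Gen
  | z :: zs, z' :: zs' => up z' :: A :: up z :: A :: jt zs zs'
  | _, _ => []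

theorem ev_jt (zs : List Gen) : ∀ (zs' : List Gen), (∀ z ∈ zs, z = C ∨ z = D) →
    (∀ z ∈ zs', z = C ∨ z = D) → zs.length = zs'.length →
    ev (jt zs zs') = pair (ev (AZ zs)) (ev (ZA zs')) := by
  induction zs with
  | nil =>
    intro zs' _ _ h
    cases zs' with
    | nil => simp [jt, pair_one]
    | cons z zs => simp at h
  | cons z zs ih =>
    intro zs' h h' hl
    cases zs' with
    | nil => simp at hl
    | cons z' zs' =>
      have hw := ih zs' (fun z hz => h z (List.mem_cons_of_mem _ hz))
        (fun z hz => h' z (List.mem_cons_of_mem _ hz)) (by simpa using hl)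
      have hz := h z (List.mem_cons_self ..)
      have hz' := h' z' (List.mem_cons_self ..)
      simp only [jt, ev_cons, hw, AZ_cons, ZA_cons]
      have e2 : val (up z') * (val A * (val (up z) * val A)) =
          pair (genA * val z) (val z' * genA) := by
        show val (up z') * (genA * (val (up z) * genA)) = _
        rw [a_up_a hz, val_up hz', pair_mul]
      have e3 : ∀ g, val (up z') * (val A * (val (up z) * (val A * g))) =
          val (up z') * (val A * (val (up z) * val A)) * g := by
        intro g; simp only [mul_assoc]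
      rw [e3, e2, pair_mul, mul_assoc, mul_assoc]
      rfl

theorem cA_jt (zs : List Gen) : ∀ (zs' : List Gen), zs.length = zs'.length →
    cA (jt zs zs') = 2 * zs.length := by
  induction zs with
  | nil =>
    intro zs' h
    cases zs' with
    | nil => rfl
    | cons z zs => simp at h
  | cons z zs ih =>
    intro zs' hl
    cases zs' with
    | nil => simp at hl
    | cons z' zs' =>
      have hw := ih zs' (by simpa using hl)
      simp only [jt]
      rw [cA_up, cA_consA, cA_up, cA_consA, hw]
      simp; omega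

end Pool.Agent.H.MP_7efe7b_al
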